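import Mathlib

/-! Definitions for product-free subsets of the free group.  A letter of `A ∪ A⁻¹` is a pair
`(α, true)` (for `α`) or `(α, false)` (for `α⁻¹`), and `FreeGroup.toWord` is the reduced word. -/

namespace Pool.Agent.MP_f60a12_co

variable {A : Type} [DecidableEq A]

/-- `F(n)`: the elements whose reduced word has length `n`. -/
def layer (A : Type) [DecidableEq A] (n : ℕ) : Set (FreeGroup A) := {w | w.toWord.length = n}

/-- `|B ∩ F(n)| / |F(n)|`. -/
noncomputable def layerDensity (B : Set (FreeGroup A)) (n : ℕ) : ℝ :=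
  ((B ∩ layer A n).ncard : ℝ) / ((layer A n).ncard : ℝ)

/-- `d^I(B)` for the interval `I = {a, a + 1, …, a + l - 1}` of size `l`. -/
noncomputable def intervalDensity (B : Set (FreeGroup A)) (a l : ℕ) : ℝ :=
  (∑ n ∈ Finset.Ico a (a + l), layerDensity B n) / (l : ℝ)

/-- The upper Banach density: the `limsup` as both `min I` and `|I|` tend to infinity. -/
noncomputable def upperBanachDensity (B : Set (FreeGroup A)) : ℝ :=
  Filter.limsup (fun p : ℕ × ℕ => intervalDensity B p.1 p.2) (Filter.atTop ×ˢ Filter.atTop)

/-- `S` is product-free. -/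
def ProductFree (S : Set (FreeGroup A)) : Prop := ∀ x ∈ S, ∀ y ∈ S, x * y ∉ S

/-- `λ(w)`: the sum of the labels of the letters of the reduced word of `w`. -/
def labelSum (lab : A × Bool → ZMod 2) (w : FreeGroup A) : ZMod 2 := (w.toWord.map lab).sum

end Pool.Agent.MP_f60a12_co
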